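import Mathlib

namespace Pool.Agent.Results.MP_06b617_an.Normal

open Filter Topology BoundedContinuousFunction Finset

variable {X : Type*} [NormedAddCommGroup X] [NormedSpace ℝ X]

/-- Closed pointed convex cones. -/
def IsCone (P : Set X) : Prop :=
  IsClosed P ∧ (∀ x ∈ P, ∀ y ∈ P, x + y ∈ P) ∧ (∀ l : ℝ, 0 ≤ l → ∀ x ∈ P, l • x ∈ P) ∧
    P ∩ -P = {0}

/-- Increasing and order bounded sequences. -/
def IncBdd (P : Set X) (x : ℕ → X) : Prop :=
  (∀ n, x (n + 1) - x n ∈ P) ∧ ∃ v, ∀ n, v - x n ∈ P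

/-- `s` is a supremum of the sequence `x`. -/
def IsSup (P : Set X) (x : ℕ → X) (s : X) : Prop :=
  (∀ n, s - x n ∈ P) ∧ ∀ v, (∀ n, v - x n ∈ P) → v - s ∈ P

/-- Property (S). -/
def PropS (P : Set X) : Prop := ∀ x, IncBdd P x → ∃ s, IsSup P x s

/-- Normal cones. -/
def IsNormal (P : Set X) : Prop := ∃ c : ℝ, 1 ≤ c ∧ ∀ x y, x ∈ P → y - x ∈ P → ‖x‖ ≤ c * ‖y‖

variable {P : Set X}

lemma IsCone.zero (h : IsCone P) : (0 : X) ∈ P := (h.2.2.2.symm.subset rfl).1

lemma IsCone.anti (h : IsCone P) {x : X} (h1 : x ∈ P) (h2 : -x ∈ P) : x = 0 :=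
  h.2.2.2.subset ⟨h1, h2⟩

lemma IsCone.sum (h : IsCone P) {s : Finset ℕ} {x : ℕ → X} (hx : ∀ i ∈ s, x i ∈ P) :
    ∑ i ∈ s, x i ∈ P :=
  Finset.sum_induction x (· ∈ P) (fun a b ha hb => h.2.1 a ha b hb) h.zero hx

lemma exists_T [CompleteSpace X] (h : IsCone P) (hS : PropS P) (x : ℕ → X) (hx : ∀ k, x k ∈ P)
    (v : X) (hv : ∀ n, v - ∑ k ∈ range n, x k ∈ P) :
    ∃ T : (ℕ →ᵇ ℝ) →L[ℝ] X, ∀ a : ℕ →ᵇ ℝ, (∀ k, 0 ≤ a k) →
      IsSup P (fun n => ∑ k ∈ range n, a k • x k) (T a) := by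
  have mono : ∀ a : ℕ →ᵇ ℝ, (∀ k, 0 ≤ a k) → ∀ m n, m ≤ n →
      ∑ k ∈ range n, a k • x k - ∑ k ∈ range m, a k • x k ∈ P := by
    intro a ha m n hmn
    rw [← Finset.sum_Ico_eq_sub _ hmn]
    exact h.sum fun i _ => h.2.2.1 _ (ha i) _ (hx i)
  have h1 : ∀ a : ℕ →ᵇ ℝ, ∃ s, (∀ k, 0 ≤ a k) → IsSup P (fun n => ∑ k ∈ range n, a k • x k) s := by
    intro a
    by_cases ha : ∀ k, 0 ≤ a k
    · obtain ⟨s, hs⟩ := hS (fun n => ∑ k ∈ range n, a k • x k) ⟨fun n => mono a ha _ _ n.le_succ,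
        ‖a‖ • v, fun n => by
          have e : ‖a‖ • v - ∑ k ∈ range n, a k • x k =
              ‖a‖ • (v - ∑ k ∈ range n, x k) + ∑ k ∈ range n, (‖a‖ - a k) • x k := by
            simp only [smul_sub, Finset.smul_sum, sub_smul, Finset.sum_sub_distrib]; abel
          rw [e]
          exact h.2.1 _ (h.2.2.1 _ (norm_nonneg _) _ (hv n)) _ (h.sum fun i _ => h.2.2.1 _
            (sub_nonneg.mpr (a.apply_le_norm i)) _ (hx i))⟩
      exact ⟨s, fun _ => hs⟩
    · exact ⟨0, fun h => absurd h ha⟩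
  choose S hS using h1
  have uniq : ∀ {u : ℕ → X} {s t : X}, IsSup P u s → IsSup P u t → s = t := fun h1 h2 =>
    sub_eq_zero.mp (h.anti (h2.2 _ h1.1) (by rw [neg_sub]; exact h1.2 _ h2.1))
  have add : ∀ a b : ℕ →ᵇ ℝ, (∀ k, 0 ≤ a k) → (∀ k, 0 ≤ b k) → S (a + b) = S a + S b := by
    intro a b ha hb
    refine uniq (hS _ fun k => add_nonneg (ha k) (hb k)) ⟨fun n => ?_, fun w hw => ?_⟩
    · have := h.2.1 _ ((hS a ha).1 n) _ ((hS b hb).1 n)
      simp only [BoundedContinuousFunction.add_apply, add_smul, Finset.sum_add_distrib]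
      rwa [← add_sub_add_comm] at this
    · rw [add_comm, ← sub_sub]
      refine (hS a ha).2 _ fun n => ?_
      rw [sub_right_comm]
      refine (hS b hb).2 _ fun m => ?_
      have := h.2.1 _ (hw (max m n)) _ (h.2.1 _ (mono a ha _ _ (le_max_right m n)) _
        (mono b hb _ _ (le_max_left m n)))
      simp only [BoundedContinuousFunction.add_apply, add_smul, Finset.sum_add_distrib] at this
      exact Set.mem_of_eq_of_mem (by abel) this
  have zero : S 0 = 0 := by simpa using add 0 0 (by simp) (by simp)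
  have smul : ∀ (c : ℝ) (a : ℕ →ᵇ ℝ), 0 ≤ c → (∀ k, 0 ≤ a k) → S (c • a) = c • S a := by
    intro c a hc ha
    rcases hc.eq_or_lt with rfl | hc'
    · simp [zero]
    refine uniq (hS _ fun k => mul_nonneg hc (ha k)) ⟨fun n => ?_, fun w hw => ?_⟩
    · have := h.2.2.1 c hc _ ((hS a ha).1 n)
      simpa [smul_sub, Finset.smul_sum, smul_smul] using this
    · have := h.2.2.1 c hc _ ((hS a ha).2 (c⁻¹ • w) fun n => by
        have := h.2.2.1 c⁻¹ (inv_nonneg.mpr hc) _ (hw n)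
        simpa [smul_sub, Finset.smul_sum, smul_smul, hc'.ne'] using this)
      simpa [smul_sub, smul_smul, hc'.ne'] using this
  have p1 : ∀ (a : ℕ →ᵇ ℝ) k, 0 ≤ (a + const ℕ ‖a‖) k := fun a k => by
    have := a.neg_norm_le_apply k
    simp only [BoundedContinuousFunction.add_apply, const_apply]
    linarith
  have p2 : ∀ (a : ℕ →ᵇ ℝ) k, 0 ≤ (const ℕ ‖a‖) k := fun a k => norm_nonneg a
  have key : ∀ p q : ℕ →ᵇ ℝ, (∀ k, 0 ≤ p k) → (∀ k, 0 ≤ q k) →
      S (p - q + const ℕ ‖p - q‖) - S (const ℕ ‖p - q‖) = S p - S q := by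
    intro p q hp hq
    rw [sub_eq_sub_iff_add_eq_add, ← add _ _ (p1 _) hq, ← add _ _ hp (p2 _)]
    congr 1; abel
  let L : (ℕ →ᵇ ℝ) →ₗ[ℝ] X :=
    { toFun := fun a => S (a + const ℕ ‖a‖) - S (const ℕ ‖a‖)
      map_add' := fun a b => by
        have := key (a + const ℕ ‖a‖ + (b + const ℕ ‖b‖)) (const ℕ ‖a‖ + const ℕ ‖b‖)
          (fun k => add_nonneg (p1 a k) (p1 b k)) (fun k => add_nonneg (p2 a k) (p2 b k))
        rw [add _ _ (p1 a) (p1 b), add _ _ (p2 a) (p2 b),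
          show a + const ℕ ‖a‖ + (b + const ℕ ‖b‖) - (const ℕ ‖a‖ + const ℕ ‖b‖) = a + b by abel]
          at this
        rw [this]; abel
      map_smul' := fun c a => by
        rcases le_total 0 c with hc | hc
        · have := key (c • (a + const ℕ ‖a‖)) (c • const ℕ ‖a‖)
            (fun k => mul_nonneg hc (p1 a k)) (fun k => mul_nonneg hc (p2 a k))
          rw [smul _ _ hc (p1 a), smul _ _ hc (p2 a), ← smul_sub c (a + _), add_sub_cancel_right] at this
          rw [this, RingHom.id_apply, smul_sub]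
        · have hc' := neg_nonneg.mpr hc
          have := key ((-c) • const ℕ ‖a‖) ((-c) • (a + const ℕ ‖a‖))
            (fun k => mul_nonneg hc' (p2 a k)) (fun k => mul_nonneg hc' (p1 a k))
          rw [smul _ _ hc' (p1 a), smul _ _ hc' (p2 a), 
            show -c • const ℕ ‖a‖ - -c • (a + const ℕ ‖a‖) = c • a by ext; simp] at this
          rw [this, RingHom.id_apply, smul_sub, neg_smul, neg_smul]; abel }
  have hL : ∀ a : ℕ →ᵇ ℝ, (∀ k, 0 ≤ a k) → L a = S a := fun a ha => by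
    have := key a 0 ha (by simp)
    rwa [sub_zero, zero, sub_zero] at this
  have hP : ∀ a : ℕ →ᵇ ℝ, (∀ k, 0 ≤ a k) → L a ∈ P := fun a ha => by
    simpa [hL a ha] using (hS a ha).1 0
  have hcl : ∀ (u : ℕ → ℕ →ᵇ ℝ) a y, Tendsto u atTop (𝓝 a) → Tendsto (L ∘ u) atTop (𝓝 y) →
      y - L a ∈ P := by
    intro u a y h1 h2
    have h3 := (h2.sub_const (L a)).add
      ((tendsto_iff_norm_sub_tendsto_zero.mp h1).smul_const (L (const ℕ 1)))
    rw [zero_smul, add_zero] at h3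
    refine h.1.mem_of_tendsto h3 (Eventually.of_forall fun n => ?_)
    have := hP _ (p1 (u n - a))
    rwa [map_add, map_sub, show const ℕ ‖u n - a‖ = ‖u n - a‖ • const ℕ (1 : ℝ) by ext; simp,
      map_smul] at this
  refine ⟨⟨L, L.continuous_of_seq_closed_graph fun u a y h1 h2 => ?_⟩,
    fun a ha => (hL a ha).symm ▸ hS a ha⟩
  refine sub_eq_zero.mp (h.anti (hcl u a y h1 h2) ?_)
  have := hcl (fun n => -u n) (-a) (-y) h1.neg (h2.neg.congr fun n => by simp)
  rwa [map_neg, neg_sub_neg, ← neg_sub] at this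

/-- indicator functions -/
noncomputable def ind (A : Set ℕ) : ℕ →ᵇ ℝ :=
  ofNormedAddCommGroupDiscrete (A.indicator 1) 1 fun k => by
    by_cases h : k ∈ A <;> simp [h]

lemma ind_apply (A : Set ℕ) (k : ℕ) : ind A k = A.indicator 1 k := rfl

lemma ind_nn (A : Set ℕ) (k : ℕ) : 0 ≤ ind A k := by
  by_cases h : k ∈ A <;> simp [ind_apply, h]

lemma ind_ge (h : IsCone P) {x : ℕ → X} (hx : ∀ k, x k ∈ P) {A : Set ℕ} {k : ℕ} (hk : k ∈ A) {s : X}
    (hs : IsSup P (fun n => ∑ k ∈ range n, ind A k • x k) s) : s - x k ∈ P := by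
  have h1 := h.2.1 _ (hs.1 (k + 1)) _
    (h.sum (s := range k) fun i _ => h.2.2.1 _ (ind_nn A i) _ (hx i))
  simp only [Finset.sum_range_succ, ind_apply, Set.indicator_of_mem hk, Pi.one_apply,
    one_smul] at h1
  exact Set.mem_of_eq_of_mem (by abel) h1

theorem normal [CompleteSpace X] (h : IsCone P) (hS : PropS P) : IsNormal P := by
  by_contra hn
  have h1 : ∀ k : ℕ, ∃ x y : X, x ∈ P ∧ y - x ∈ P ∧ ‖y‖ ≤ (1 / 2) ^ k ∧ (k : ℝ) < ‖x‖ := by
    intro k
    have h2 : (1 : ℝ) ≤ (k + 1) * 2 ^ k := one_le_mul_of_one_le_of_one_le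
      (by linarith [Nat.cast_nonneg (α := ℝ) k]) (one_le_pow₀ one_le_two)
    simp only [IsNormal, not_exists, not_and, not_forall, not_le] at hn
    obtain ⟨x, y, h3, h4, h5⟩ := hn _ h2
    have h6 : 0 < ‖x‖ := lt_of_le_of_lt (by positivity) h5
    have h7 : 0 ≤ (k + 1) / ‖x‖ := by positivity
    refine ⟨((k + 1) / ‖x‖) • x, ((k + 1) / ‖x‖) • y, h.2.2.1 _ h7 _ h3,
      smul_sub ((k + 1) / ‖x‖) y x ▸ h.2.2.1 _ h7 _ h4, ?_, ?_⟩
    · rw [norm_smul, Real.norm_of_nonneg h7, div_mul_eq_mul_div, one_div, inv_pow, ← one_div,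
        div_le_div_iff₀ h6 (by positivity)]
      linarith
    · rw [norm_smul, Real.norm_of_nonneg h7, div_mul_cancel₀ _ h6.ne']
      linarith
  choose x y hx hxy hy hn using h1
  have hs : Summable y := .of_norm_bounded summable_geometric_two hy
  have hyP : ∀ k, y k ∈ P := fun k => by simpa using h.2.1 _ (hxy k) _ (hx k)
  obtain ⟨T, hT⟩ := exists_T h hS x hx (∑' k, y k) fun n => by
    rw [← hs.sum_add_tsum_nat_add n, add_sub_right_comm, ← Finset.sum_sub_distrib]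
    refine h.2.1 _ (h.sum fun i _ => hxy i) _ (h.1.mem_of_tendsto
      ((summable_nat_add_iff n).mpr hs).hasSum.tendsto_sum_nat (Eventually.of_forall fun m => ?_))
    exact h.sum fun i _ => hyP _
  obtain ⟨k, hk⟩ := exists_nat_gt ‖T‖
  have h2 := hT _ (ind_nn {k})
  have h3 : T (ind {k}) = x k := by
    refine sub_eq_zero.mp (h.anti (ind_ge h hx (Set.mem_singleton k) h2) ?_)
    rw [neg_sub]
    refine h2.2 _ fun n => ?_
    beta_reduce
    rw [Finset.sum_eq_ite k fun i _ hi => by simp [ind_apply, hi]]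
    split_ifs
    · simpa [ind_apply] using h.zero
    · simpa using hx k
  have h4 := T.le_opNorm (ind {k})
  have h5 : ‖ind {k}‖ ≤ 1 := (norm_le zero_le_one).mpr fun i => by
    by_cases h : i = k <;> simp [ind_apply, h]
  rw [h3] at h4
  have := mul_le_mul_of_nonneg_left h5 (norm_nonneg T)
  linarith [hn k]

theorem result [CompleteSpace X] (h : IsCone P) (hS : PropS P) :
    IsNormal P ∧ (TopologicalSpace.SeparableSpace X →
      ∀ u, IncBdd P u → ∃ l, Tendsto u atTop (𝓝 l)) := by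
  refine ⟨normal h hS, fun _ u ⟨h1, v, h2⟩ => cauchySeq_tendsto_of_complete ?_⟩
  obtain ⟨c, hc, hN⟩ := normal h hS
  by_contra h3
  simp only [Metric.cauchySeq_iff', not_forall, not_exists, not_lt] at h3
  obtain ⟨δ, hδ, h3⟩ := h3
  choose f hf h3 using h3
  have mono : ∀ m n, m ≤ n → u n - u m ∈ P := fun m n hmn => by
    rw [← Finset.sum_Ico_sub u hmn]
    exact h.sum fun i _ => h1 i
  set g : ℕ → ℕ := fun k => f^[k] 0 with hg
  have hg' : ∀ k, g (k + 1) = f (g k) := fun k => Function.iterate_succ_apply' _ _ _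
  have hx : ∀ k, u (g (k + 1)) - u (g k) ∈ P := fun k => mono _ _ (hg' k ▸ hf _)
  obtain ⟨T, hT⟩ := exists_T h hS _ hx (v - u (g 0)) fun n => by
    rw [Finset.sum_range_sub fun k => u (g k), sub_sub_sub_cancel_right]
    exact h2 _
  obtain ⟨q, hq⟩ := exists_surjective_nat ℚ
  have key : ∀ s t : ℝ, s < t → δ / c ≤ dist (T (ind {k | (q k : ℝ) < t}))
      (T (ind {k | (q k : ℝ) < s})) := by
    intro s t hst
    obtain ⟨r, h4, h5⟩ := exists_rat_btwn hst
    obtain ⟨k, rfl⟩ := hq r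
    have e : ind {k | (q k : ℝ) < t} - ind {k | (q k : ℝ) < s} =
        ind {k | s ≤ (q k : ℝ) ∧ (q k : ℝ) < t} := by
      ext j
      rcases lt_or_ge (q j : ℝ) s with h6 | h6
      · simp [ind_apply, h6, h6.trans hst, h6.not_ge]
      · by_cases h7 : (q j : ℝ) < t <;> simp [ind_apply, h6, h7, h6.not_gt]
    rw [dist_eq_norm, ← map_sub, e, div_le_iff₀' (by linarith)]
    refine le_trans ?_ (hN _ _ (hx k) (ind_ge h hx (k := k) (by exact ⟨h4.le, h5⟩) (hT _ (ind_nn _))))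
    rw [hg', ← dist_eq_norm]
    exact h3 _
  have hδ' : 0 < δ / c / 2 := by positivity
  have := Set.PairwiseDisjoint.countable_of_isOpen (a := Set.univ)
    (s := fun t : ℝ => Metric.ball (T (ind {k | (q k : ℝ) < t})) (δ / c / 2))
    (fun s _ t _ hst => Metric.ball_disjoint_ball (by
      rw [add_halves]
      rcases lt_or_gt_of_ne hst with h | h
      · rw [dist_comm]; exact key _ _ h
      · exact key _ _ h)) (fun _ _ => Metric.isOpen_ball) fun _ _ => Metric.nonempty_ball.mpr hδ'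
  exact Set.not_countable_univ this

end Pool.Agent.Results.MP_06b617_an.Normal
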